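import Mathlib

/-!
The Domino games `Γ(𝒜, ℱ, E)` (passing allowed) and `Γ*(𝒜, ℱ, E)` (no passing).

For every `d ≥ 1` we give a four letter SFT on the full lattice `E = ℤ^d` such that `A` wins `Γ*`
while `B` wins `Γ`.

The alphabet is `{R, L} × {0, 1}`.  The forbidden words (in the direction `e_1`) are
`R_b L_b`, `R_t R_t R_y L_z` and `R_x L_y L_z L_m L_m`.
-/

namespace Pool.Agent.Results.MP_d015f1_co.PassingMatters

/-- A pattern: a finite set of cells of `ℤ^d` and a letter for each of its cells. -/
structure Pattern (d : ℕ) (α : Type) where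
  supp : Finset (Fin d → ℤ)
  letter : supp → α

/-- The pattern `p` appears in the partial colouring `q` of `ℤ^d` (`none` is uncoloured). -/
def Appears {d : ℕ} {α : Type} (p : Pattern d α) (q : (Fin d → ℤ) → Option α) : Prop :=
  ∃ i : Fin d → ℤ, ∀ s : p.supp, q (i + s.1) = some (p.letter s)

/-- The result of colouring the cell `i` with the letter `a`. -/
def play {d : ℕ} {α : Type} (q : (Fin d → ℤ) → Option α) (i : Fin d → ℤ) (a : α) :
    (Fin d → ℤ) → Option α :=
  Function.update q i (some a)

/-- `AWins pass F E t q`: the position `q` is winning for `A`, in the game on the set of cells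
`E` with forbidden patterns `F`, where `t = true` if `A` is to move and `t = false` if `B` is to
move; `pass` says whether passing is allowed. -/
inductive AWins {d : ℕ} {α : Type} (pass : Prop) (F : Set (Pattern d α)) (E : Set (Fin d → ℤ)) :
    Bool → ((Fin d → ℤ) → Option α) → Prop
  | final (t : Bool) (q : (Fin d → ℤ) → Option α) (h : ∃ p ∈ F, Appears p q) :
      AWins pass F E t q
  | moveA (q : (Fin d → ℤ) → Option α) (i : Fin d → ℤ) (a : α) (hi : i ∈ E) (hq : q i = none)
      (h : AWins pass F E false (play q i a)) : AWins pass F E true q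
  | passA (q : (Fin d → ℤ) → Option α) (hp : pass) (h : AWins pass F E false q) :
      AWins pass F E true q
  | moveB (q : (Fin d → ℤ) → Option α) (hex : pass ∨ ∃ i ∈ E, q i = none)
      (h : ∀ i ∈ E, q i = none → ∀ a : α, AWins pass F E true (play q i a))
      (hp : pass → AWins pass F E true q) : AWins pass F E false q

/-- The empty position. -/
def start (d : ℕ) (α : Type) : (Fin d → ℤ) → Option α := fun _ => none

/-! ### One line -/

/-- The state of a cell. -/
abbrev O := Option (Bool × Bool)

/-- The cell carries a letter `R`. -/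
def isR (c : O) : Bool := match c with
  | some (true, _) => true
  | _ => false

/-- The cell carries a letter `L`. -/
def isL (c : O) : Bool := match c with
  | some (false, _) => true
  | _ => false

/-- The index of the letter. -/
def lab (c : O) : Bool := match c with
  | some (_, b) => b
  | _ => false

/-- No forbidden word on the line. -/
structure NF (g : ℤ → O) : Prop where
  h5 : ∀ k, isR (g k) = true → isL (g (k+1)) = true → lab (g k) ≠ lab (g (k+1))
  h6 : ∀ k, isR (g k) = true → isR (g (k+1)) = true → isR (g (k+2)) = true →
    isL (g (k+3)) = true → lab (g k) ≠ lab (g (k+1))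
  h7 : ∀ k, isR (g k) = true → isL (g (k+1)) = true → isL (g (k+2)) = true →
    isL (g (k+3)) = true → isL (g (k+4)) = true → lab (g (k+3)) ≠ lab (g (k+4))

/-- `B`'s invariant on a line. -/
structure Inv (g : ℤ → O) : Prop where
  h1 : ∀ k, isR (g k) = true → g (k+1) ≠ none
  h2 : ∀ k, isL (g (k+1)) = true → g k ≠ none
  h3 : ∀ k, g k = none → isR (g (k+1)) = true → isR (g (k+2)) = true → isL (g (k+3)) = false
  h4 : ∀ k, isR (g k) = true → isL (g (k+1)) = true → isL (g (k+2)) = true →
    isL (g (k+3)) = true → g (k+4) ≠ none
  nf : NF g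

theorem isR_or (c : O) (h : c ≠ none) : isR c = true ∨ isL c = true := by
  rcases c with _ | ⟨a, b⟩
  · exact absurd rfl h
  · cases a <;> simp [isR, isL]

theorem not_both (c : O) (h : isR c = true) : isL c = false := by
  rcases c with _ | ⟨a, b⟩
  · rfl
  · cases a <;> simp_all [isR, isL]

theorem isR_none : isR none = false := rfl
theorem isL_none : isL none = false := rfl

/-- After `A`'s move no forbidden word has appeared. -/
theorem nf_after (g : ℤ → O) (H : Inv g) (x : ℤ) (t b : Bool) (h0 : g x = none) :
    NF (fun k => if k = x then some (t, b) else g k) := by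
  have a1 : isR (some (true, b)) = true := rfl
  have a2 : isL (some (true, b)) = false := rfl
  have a3 : isR (some (false, b)) = false := rfl
  have a4 : isL (some (false, b)) = true := rfl
  have a5 : lab (some (t, b)) = b := rfl
  obtain ⟨H1, H2, H3, H4, H5, H6, H7⟩ := H
  have e1 := H1 (x-1)
  have e2 := H2 x
  constructor
  · intro k; have := H5 k; grind [isR_none, isL_none]
  · intro k; have := H6 k; have := H3 k; cases t <;> grind [not_both, isR_or, isR_none, isL_none]
  · intro k; have := H7 k; have := H4 k; cases t <;> grind [not_both, isR_or, isR_none, isL_none]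

/-- `A` plays `R_b`, the cell to the right is free: `B` answers there. -/
theorem caseRa (g : ℤ → O) (H : Inv g) (x : ℤ) (b : Bool) (h0 : g x = none)
    (h1 : g (x+1) = none) :
    Inv (fun k => if k = x + 1 then some (false, !b) else if k = x then some (true, b) else g k) := by
  have a1 : isR (some (true, b)) = true := rfl
  have a2 : isL (some (true, b)) = false := rfl
  have a3 : isR (some (false, !b)) = false := rfl
  have a4 : isL (some (false, !b)) = true := rfl
  have a5 : lab (some (true, b)) = b := rfl
  have a6 : lab (some (false, !b)) = !b := rfl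
  obtain ⟨H1, H2, H3, H4, H5, H6, H7⟩ := H
  have e1 := H1 (x-1)
  have e2 := H2 (x+1)
  constructor
  · intro k; have := H1 k; grind
  · intro k; have := H2 k; grind
  · intro k; have := H3 k; grind [not_both, isR_or]
  · intro k; have := H4 k; grind [not_both, isR_or]
  · constructor
    · intro k; have := H5 k; grind [not_both, isR_or]
    · intro k; have := H6 k; grind [not_both, isR_or]
    · intro k; have := H7 k; grind [not_both, isR_or]

/-- `A` plays `L_b`, the cell to the left is free: `B` answers there. -/
theorem caseLa (g : ℤ → O) (H : Inv g) (x : ℤ) (b : Bool) (h0 : g x = none)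
    (h1 : g (x-1) = none) :
    Inv (fun k => if k = x - 1 then some (true, !b) else if k = x then some (false, b) else g k) := by
  have a1 : isR (some (true, !b)) = true := rfl
  have a2 : isL (some (true, !b)) = false := rfl
  have a3 : isR (some (false, b)) = false := rfl
  have a4 : isL (some (false, b)) = true := rfl
  have a5 : lab (some (true, !b)) = !b := rfl
  have a6 : lab (some (false, b)) = b := rfl
  obtain ⟨H1, H2, H3, H4, H5, H6, H7⟩ := H
  have e1 := H1 (x-2)
  have e2 := H2 x
  constructor
  · intro k; have := H1 k; grind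
  · intro k; have := H2 k; grind
  · intro k; have := H3 k; grind [not_both, isR_or]
  · intro k; have := H4 k; grind [not_both, isR_or]
  · constructor
    · intro k; have := H5 k; grind [not_both, isR_or]
    · intro k; have := H6 k; grind [not_both, isR_or]
    · intro k; have := H7 k; grind [not_both, isR_or]

/-- `A` plays in a gap of length one: `B` passes. -/
theorem caseGap (g : ℤ → O) (H : Inv g) (x : ℤ) (t b : Bool) (h0 : g x = none)
    (h1 : g (x+1) ≠ none) (h2 : g (x-1) ≠ none) :
    Inv (fun k => if k = x then some (t, b) else g k) := by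
  have a1 : isR (some (true, b)) = true := rfl
  have a2 : isL (some (true, b)) = false := rfl
  have a3 : isR (some (false, b)) = false := rfl
  have a4 : isL (some (false, b)) = true := rfl
  have a5 : lab (some (t, b)) = b := rfl
  have hnf := nf_after g H x t b h0
  obtain ⟨H1, H2, H3, H4, H5, H6, H7⟩ := H
  have e1 := H1 (x-1)
  have e2 := H2 x
  constructor
  · intro k; have := H1 k; cases t <;> grind [not_both, isR_or]
  · intro k; have := H2 k; cases t <;> grind [not_both, isR_or]
  · intro k; have := H3 k; cases t <;> grind [not_both, isR_or]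
  · intro k; have := H4 k; cases t <;> grind [not_both, isR_or]
  · exact hnf

/-- `A` plays `R_b` just to the left of a block that starts with `R L`: `B` extends. -/
theorem caseRb (g : ℤ → O) (H : Inv g) (x : ℤ) (b : Bool) (h0 : g x = none)
    (h3 : isL (g (x+2)) = true) :
    Inv (fun k => if k = x - 1 then some (true, !b) else if k = x then some (true, b) else g k) := by
  have a1 : isR (some (true, b)) = true := rfl
  have a2 : isL (some (true, b)) = false := rfl
  have a3 : isR (some (true, !b)) = true := rfl
  have a4 : isL (some (true, !b)) = false := rfl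
  have a5 : lab (some (true, b)) = b := rfl
  have a6 : lab (some (true, !b)) = !b := rfl
  obtain ⟨H1, H2, H3, H4, H5, H6, H7⟩ := H
  have e1 := H1 (x-2)
  have e2 := H2 x
  constructor
  · intro k; have := H1 k; grind [not_both, isR_or]
  · intro k; have := H2 k; grind [not_both, isR_or]
  · intro k; have := H3 k; grind [not_both, isR_or]
  · intro k; have := H4 k; grind [not_both, isR_or]
  · constructor
    · intro k; have := H5 k; grind [not_both, isR_or]
    · intro k; have := H6 k; grind [not_both, isR_or]
    · intro k; have := H7 k; grind [not_both, isR_or]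

/-- `A` plays `R_b` just to the left of a block that starts with `R R`: `B` passes. -/
theorem caseRc (g : ℤ → O) (H : Inv g) (x : ℤ) (b : Bool) (h0 : g x = none)
    (h1 : g (x+1) ≠ none) (h3 : isL (g (x+2)) = false) :
    Inv (fun k => if k = x then some (true, b) else g k) := by
  have a1 : isR (some (true, b)) = true := rfl
  have a2 : isL (some (true, b)) = false := rfl
  have a5 : lab (some (true, b)) = b := rfl
  have hnf := nf_after g H x true b h0
  obtain ⟨H1, H2, H3, H4, H5, H6, H7⟩ := H
  have e1 := H1 (x-1)
  have e2 := H2 x
  constructor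
  · intro k; have := H1 k; grind [not_both, isR_or]
  · intro k; have := H2 k; grind [not_both, isR_or]
  · intro k; have := H3 k; grind [not_both, isR_or]
  · intro k; have := H4 k; grind [not_both, isR_or]
  · exact hnf

/-- `A` plays `L_b` just to the right of a block that ends with `R L L`: `B` extends. -/
theorem caseLb (g : ℤ → O) (H : Inv g) (x : ℤ) (b : Bool) (h0 : g x = none)
    (h1 : g (x-1) ≠ none) (h2 : g (x+1) = none) (h3 : isL (g (x-2)) = true)
    (h4 : isR (g (x-3)) = true) :
    Inv (fun k => if k = x + 1 then some (false, !b) else if k = x then some (false, b) else g k) := by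
  have a1 : isR (some (false, b)) = false := rfl
  have a2 : isL (some (false, b)) = true := rfl
  have a3 : isR (some (false, !b)) = false := rfl
  have a4 : isL (some (false, !b)) = true := rfl
  have a5 : lab (some (false, b)) = b := rfl
  have a6 : lab (some (false, !b)) = !b := rfl
  obtain ⟨H1, H2, H3, H4, H5, H6, H7⟩ := H
  have e1 := H1 (x-1)
  have e2 := H2 (x+1)
  constructor
  · intro k; have := H1 k; grind [not_both, isR_or]
  · intro k; have := H2 k; grind [not_both, isR_or]
  · intro k; have := H3 k; grind [not_both, isR_or]
  · intro k; have := H4 k; grind [not_both, isR_or]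
  · constructor
    · intro k; have := H5 k; grind [not_both, isR_or]
    · intro k; have := H6 k; grind [not_both, isR_or]
    · intro k; have := H7 k; grind [not_both, isR_or]

/-- `A` plays `L_b` just to the right of any other block: `B` passes. -/
theorem caseLc (g : ℤ → O) (H : Inv g) (x : ℤ) (b : Bool) (h0 : g x = none)
    (h1 : g (x-1) ≠ none) (h3 : isL (g (x-2)) = false ∨ isR (g (x-3)) = false) :
    Inv (fun k => if k = x then some (false, b) else g k) := by
  have a1 : isR (some (false, b)) = false := rfl
  have a2 : isL (some (false, b)) = true := rfl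
  have a5 : lab (some (false, b)) = b := rfl
  have hnf := nf_after g H x false b h0
  obtain ⟨H1, H2, H3, H4, H5, H6, H7⟩ := H
  have e1 := H1 (x-1)
  have e2 := H2 x
  constructor
  · intro k; have := H1 k; grind [not_both, isR_or]
  · intro k; have := H2 k; grind [not_both, isR_or]
  · intro k; have := H3 k; grind [not_both, isR_or]
  · intro k; have := H4 k; grind [not_both, isR_or]
  · exact hnf

/-! ### The lattice -/

section lattice

variable {d : ℕ} (i0 : Fin d)

/-- The cell at distance `k` from `x` in the direction `i0`. -/
def sh (x : Fin d → ℤ) (k : ℤ) : Fin d → ℤ := x + Pi.single i0 k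

theorem sh_zero (x : Fin d → ℤ) : sh i0 x 0 = x := by simp [sh]

theorem sh_sh (x : Fin d → ℤ) (j k : ℤ) : sh i0 (sh i0 x j) k = sh i0 x (j + k) := by
  simp [sh, add_assoc, Pi.single_add]

theorem sh_inj (x : Fin d → ℤ) (j k : ℤ) : sh i0 x j = sh i0 x k ↔ j = k := by
  constructor
  · intro h
    have := congrFun h i0
    simpa [sh] using this
  · rintro rfl; rfl

theorem sh_eq_self (x : Fin d → ℤ) (k : ℤ) : sh i0 x k = x ↔ k = 0 := by
  conv_lhs => rhs; rw [← sh_zero i0 x]
  exact sh_inj i0 x k 0

/-- The line through `x`. -/
def line (q : (Fin d → ℤ) → O) (x : Fin d → ℤ) : ℤ → O := fun k => q (sh i0 x k)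

/-- `B`'s invariant. -/
def InvQ (q : (Fin d → ℤ) → O) : Prop := ∀ x, Inv (line i0 q x)

/-- No forbidden word. -/
def NFQ (q : (Fin d → ℤ) → O) : Prop := ∀ x, NF (line i0 q x)

theorem NF.shift {g : ℤ → O} (H : NF g) (j : ℤ) : NF (fun k => g (j + k)) := by
  obtain ⟨H5, H6, H7⟩ := H
  constructor
  · intro k; have := H5 (j + k); simpa only [← add_assoc] using this
  · intro k; have := H6 (j + k); simpa only [← add_assoc] using this
  · intro k; have := H7 (j + k); simpa only [← add_assoc] using this

theorem Inv.shift {g : ℤ → O} (H : Inv g) (j : ℤ) : Inv (fun k => g (j + k)) := by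
  have hn := H.nf.shift j
  obtain ⟨H1, H2, H3, H4, -⟩ := H
  constructor
  · intro k; have := H1 (j + k); simpa only [← add_assoc] using this
  · intro k; have := H2 (j + k); simpa only [← add_assoc] using this
  · intro k; have := H3 (j + k); simpa only [← add_assoc] using this
  · intro k; have := H4 (j + k); simpa only [← add_assoc] using this
  · exact hn

theorem line_sh (q : (Fin d → ℤ) → O) (x : Fin d → ℤ) (j : ℤ) :
    line i0 q (sh i0 x j) = fun k => line i0 q x (j + k) := by
  funext k
  simp [line, sh_sh]

theorem lift {q q' : (Fin d → ℤ) → O} (x : Fin d → ℤ) (hx : Inv (line i0 q' x))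
    (hoff : ∀ y, (∀ j : ℤ, sh i0 x j ≠ y) → q' y = q y) (H : InvQ i0 q) : InvQ i0 q' := by
  intro p
  by_cases hp : ∃ j : ℤ, sh i0 x j = p
  · obtain ⟨j, rfl⟩ := hp
    rw [line_sh]
    exact hx.shift j
  · push Not at hp
    have : line i0 q' p = line i0 q p := by
      funext k
      apply hoff
      intro j hj
      apply hp (j - k)
      have : sh i0 (sh i0 x j) (-k) = p := by
        rw [hj, sh_sh]; simp [sh_zero]
      rw [sh_sh] at this
      exact this
    rw [this]
    exact H p

theorem liftNF {q q' : (Fin d → ℤ) → O} (x : Fin d → ℤ) (hx : NF (line i0 q' x))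
    (hoff : ∀ y, (∀ j : ℤ, sh i0 x j ≠ y) → q' y = q y) (H : NFQ i0 q) : NFQ i0 q' := by
  intro p
  by_cases hp : ∃ j : ℤ, sh i0 x j = p
  · obtain ⟨j, rfl⟩ := hp
    rw [line_sh]
    exact hx.shift j
  · push Not at hp
    have : line i0 q' p = line i0 q p := by
      funext k
      apply hoff
      intro j hj
      apply hp (j - k)
      have : sh i0 (sh i0 x j) (-k) = p := by
        rw [hj, sh_sh]; simp [sh_zero]
      rw [sh_sh] at this
      exact this
    rw [this]
    exact H p

theorem play_apply {α : Type} (q : (Fin d → ℤ) → Option α) (i y : Fin d → ℤ) (a : α) :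
    play q i a y = if y = i then some a else q y := by
  simp [play, Function.update_apply]

theorem line_play (q : (Fin d → ℤ) → O) (x : Fin d → ℤ) (s : Bool × Bool) (m : ℤ) :
    line i0 (play q (sh i0 x m) s) x = fun k => if k = m then some s else line i0 q x k := by
  funext k
  simp only [line, play_apply, sh_inj]

theorem line_play0 (q : (Fin d → ℤ) → O) (x : Fin d → ℤ) (s : Bool × Bool) :
    line i0 (play q x s) x = fun k => if k = 0 then some s else line i0 q x k := by
  have := line_play i0 q x s 0
  rwa [sh_zero] at this

/-- After `A`'s move there is no forbidden word. -/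
theorem nfq_after {q : (Fin d → ℤ) → O} (H : InvQ i0 q) (x : Fin d → ℤ) (hx : q x = none)
    (s : Bool × Bool) : NFQ i0 (play q x s) := by
  apply liftNF i0 x (q := q)
  · rw [line_play0]
    exact nf_after _ (H x) 0 s.1 s.2 (by simpa [line, sh_zero] using hx)
  · intro y hy
    have : y ≠ x := by
      rintro rfl
      exact hy 0 (sh_zero i0 _)
    simp [play_apply, this]
  · exact fun p => (H p).nf

theorem pass_ok {q : (Fin d → ℤ) → O} (H : InvQ i0 q) (x : Fin d → ℤ) (s : Bool × Bool)
    (h : Inv (fun k => if k = 0 then some s else line i0 q x k)) : InvQ i0 (play q x s) := by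
  apply lift i0 x (q := q)
  · rw [line_play0]
    exact h
  · intro y hy
    have : y ≠ x := by
      rintro rfl
      exact hy 0 (sh_zero i0 _)
    simp [play_apply, this]
  · exact H

theorem reply_ok {q : (Fin d → ℤ) → O} (H : InvQ i0 q) (x : Fin d → ℤ) (s a : Bool × Bool) (m : ℤ)
    (hm : m ≠ 0) (hfree : line i0 q x m = none)
    (h : Inv (fun k => if k = m then some a else if k = 0 then some s else line i0 q x k)) :
    ∃ y b, play q x s y = none ∧ InvQ i0 (play (play q x s) y b) := by
  refine ⟨sh i0 x m, a, ?_, ?_⟩
  · have : sh i0 x m ≠ x := by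
      rw [Ne, sh_eq_self]; exact hm
    simp only [play_apply, this, if_false]
    exact hfree
  · apply lift i0 x (q := q)
    · rw [line_play, line_play0]
      exact h
    · intro y hy
      have h1 : y ≠ x := by
        rintro rfl
        exact hy 0 (sh_zero i0 _)
      have h2 : y ≠ sh i0 x m := fun h => hy m h.symm
      simp [play_apply, h1, h2]
    · exact H

/-- `B` can answer every move of `A` by passing or by colouring a cell. -/
theorem response {q : (Fin d → ℤ) → O} (H : InvQ i0 q) (x : Fin d → ℤ) (hx : q x = none)
    (s : Bool × Bool) :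
    InvQ i0 (play q x s) ∨ ∃ y b, play q x s y = none ∧ InvQ i0 (play (play q x s) y b) := by
  obtain ⟨t, b⟩ := s
  set g := line i0 q x with hg
  have h0 : g 0 = none := by simpa [hg, line, sh_zero] using hx
  have HI : Inv g := H x
  cases t
  · by_cases h1 : g (-1) = none
    · right
      apply reply_ok i0 H x _ (true, !b) (-1) (by norm_num) h1
      have := caseLa g HI 0 b h0 (by simpa using h1)
      simpa using this
    · by_cases h3 : isL (g (-2)) = true ∧ isR (g (-3)) = true
      · by_cases h2 : g 1 = none
        · right
          apply reply_ok i0 H x _ (false, !b) 1 (by norm_num) h2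
          have := caseLb g HI 0 b h0 (by simpa using h1) (by simpa using h2)
            (by simpa using h3.1) (by simpa using h3.2)
          simpa using this
        · left
          apply pass_ok i0 H x
          exact caseGap g HI 0 false b h0 (by simpa using h2) (by simpa using h1)
      · left
        apply pass_ok i0 H x
        apply caseLc g HI 0 b h0 (by simpa using h1)
        simp only [zero_sub]
        by_contra hcon
        push Not at hcon
        exact h3 ⟨by simpa using hcon.1, by simpa using hcon.2⟩
  · by_cases h1 : g 1 = none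
    · right
      apply reply_ok i0 H x _ (false, !b) 1 (by norm_num) h1
      have := caseRa g HI 0 b h0 (by simpa using h1)
      simpa using this
    · by_cases h3 : isL (g 2) = true
      · by_cases h2 : g (-1) = none
        · right
          apply reply_ok i0 H x _ (true, !b) (-1) (by norm_num) h2
          have := caseRb g HI 0 b h0 (by simpa using h3)
          simpa using this
        · left
          apply pass_ok i0 H x
          exact caseGap g HI 0 true b h0 (by simpa using h1) (by simpa using h2)
      · left
        apply pass_ok i0 H x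
        exact caseRc g HI 0 b h0 (by simpa using h1) (by simpa using h3)

end lattice

/-! ### The forbidden patterns -/

/-- The word `w` written on the cells `0, e, 2e, …`, with `e` the unit vector `i0`. -/
def word {d : ℕ} (i0 : Fin d) (w : List (Bool × Bool)) : Pattern d (Bool × Bool) where
  supp := (Finset.range w.length).image (fun k : ℕ => (Pi.single i0 (k : ℤ) : Fin d → ℤ))
  letter := fun s => w.getD (s.1 i0).toNat (true, true)

theorem appears_word {d : ℕ} (i0 : Fin d) (w : List (Bool × Bool)) (q : (Fin d → ℤ) → O) :
    Appears (word i0 w) q ↔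
      ∃ x : Fin d → ℤ, ∀ k : ℕ, k < w.length → q (sh i0 x k) = some (w.getD k (true, true)) := by
  unfold Appears
  constructor
  · rintro ⟨x, hx⟩
    refine ⟨x, fun k hk => ?_⟩
    have hmem : (Pi.single i0 (k : ℤ) : Fin d → ℤ) ∈ (word i0 w).supp := by
      simp only [word, Finset.mem_image, Finset.mem_range]
      exact ⟨k, hk, rfl⟩
    have := hx ⟨_, hmem⟩
    simpa [word, sh] using this
  · rintro ⟨x, hx⟩
    refine ⟨x, ?_⟩
    rintro ⟨s, hs⟩
    have hs' := hs
    simp only [word, Finset.mem_image, Finset.mem_range] at hs'
    obtain ⟨k, hk, rfl⟩ := hs'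
    have := hx k hk
    simpa [word, sh] using this

/-- The forbidden words. -/
def words : Set (List (Bool × Bool)) :=
  Set.range (fun b : Bool => [(true, b), (false, b)]) ∪
  Set.range (fun p : Bool × Bool × Bool =>
    [(true, p.1), (true, p.1), (true, p.2.1), (false, p.2.2)]) ∪
  Set.range (fun p : Bool × Bool × Bool × Bool =>
    [(true, p.1), (false, p.2.1), (false, p.2.2.1), (false, p.2.2.2), (false, p.2.2.2)])

/-- The forbidden patterns. -/
def forb {d : ℕ} (i0 : Fin d) : Set (Pattern d (Bool × Bool)) := word i0 '' words

theorem forb_finite {d : ℕ} (i0 : Fin d) : (forb i0).Finite := by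
  apply Set.Finite.image
  exact ((Set.finite_range _).union (Set.finite_range _)).union (Set.finite_range _)

/-- A position without forbidden word is not final. -/
theorem not_final {d : ℕ} (i0 : Fin d) {q : (Fin d → ℤ) → O} (H : NFQ i0 q) :
    ¬ ∃ p ∈ forb i0, Appears p q := by
  rintro ⟨p, ⟨w, hw, rfl⟩, hp⟩
  rw [appears_word] at hp
  obtain ⟨x, hx⟩ := hp
  obtain ⟨H5, H6, H7⟩ := H x
  rcases hw with (⟨b, rfl⟩ | ⟨⟨t, y, z⟩, rfl⟩) | ⟨⟨a, y, z, m⟩, rfl⟩
  · have e0 := hx 0 (by simp)
    have e1 := hx 1 (by simp)
    simp at e0 e1
    have := H5 0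
    simp [line, e0, e1, isR, isL, lab] at this
  · have e0 := hx 0 (by simp)
    have e1 := hx 1 (by simp)
    have e2 := hx 2 (by simp)
    have e3 := hx 3 (by simp)
    simp at e0 e1 e2 e3
    have := H6 0
    simp [line, e0, e1, e2, e3, isR, isL, lab] at this
  · have e0 := hx 0 (by simp)
    have e1 := hx 1 (by simp)
    have e2 := hx 2 (by simp)
    have e3 := hx 3 (by simp)
    have e4 := hx 4 (by simp)
    simp at e0 e1 e2 e3 e4
    have := H7 0
    simp [line, e0, e1, e2, e3, e4, isR, isL, lab] at this

/-- `B` wins the game with passing. -/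
theorem bWins {d : ℕ} (i0 : Fin d) (t : Bool) (q : (Fin d → ℤ) → O)
    (h : AWins True (forb i0) Set.univ t q) :
    (t = true → ¬ InvQ i0 q) ∧
    (t = false → NFQ i0 q →
      ¬ (InvQ i0 q ∨ ∃ y b, q y = none ∧ InvQ i0 (play q y b))) := by
  induction h with
  | final t q h =>
    refine ⟨fun _ hI => not_final i0 (fun p => (hI p).nf) h, fun _ hN => absurd h (not_final i0 hN)⟩
  | moveA q i a hi hq h ih =>
    refine ⟨fun _ hI => ?_, fun h => absurd h (by simp)⟩
    exact ih.2 rfl (nfq_after i0 hI i hq a) (response i0 hI i hq a)
  | passA q hp h ih =>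
    refine ⟨fun _ hI => ?_, fun h => absurd h (by simp)⟩
    exact ih.2 rfl (fun p => (hI p).nf) (Or.inl hI)
  | moveB q hex h hp ih ihp =>
    refine ⟨fun h => absurd h (by simp), fun _ _ hcon => ?_⟩
    rcases hcon with hI | ⟨y, b, hy, hI⟩
    · exact (ihp trivial).1 rfl hI
    · exact (ih y (Set.mem_univ _) hy b).1 rfl hI

theorem inv_start {d : ℕ} (i0 : Fin d) : InvQ i0 (start d (Bool × Bool)) := by
  intro x
  have hl : line i0 (start d (Bool × Bool)) x = fun _ => none := rfl
  rw [hl]
  constructor <;> try (intro k; simp [isR, isL])
  constructor <;> (intro k; simp [isR, isL])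

/-- Two letters `R_b L_b`. -/
theorem final2 {d : ℕ} (i0 : Fin d) (q : (Fin d → ℤ) → O) (x : Fin d → ℤ) (b : Bool)
    (h0 : q x = some (true, b)) (h1 : q (sh i0 x 1) = some (false, b)) :
    ∃ p ∈ forb i0, Appears p q := by
  refine ⟨_, ⟨_, Or.inl (Or.inl ⟨b, rfl⟩), rfl⟩, ?_⟩
  rw [appears_word]
  refine ⟨x, fun k hk => ?_⟩
  simp only [List.length_cons, List.length_nil] at hk
  interval_cases k
  · simpa [sh_zero] using h0
  · simpa using h1

theorem final4 {d : ℕ} (i0 : Fin d) (q : (Fin d → ℤ) → O) (x : Fin d → ℤ) (t y z : Bool)
    (h0 : q x = some (true, t)) (h1 : q (sh i0 x 1) = some (true, t))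
    (h2 : q (sh i0 x 2) = some (true, y)) (h3 : q (sh i0 x 3) = some (false, z)) :
    ∃ p ∈ forb i0, Appears p q := by
  refine ⟨_, ⟨_, Or.inl (Or.inr ⟨(t, y, z), rfl⟩), rfl⟩, ?_⟩
  rw [appears_word]
  refine ⟨x, fun k hk => ?_⟩
  simp only [List.length_cons, List.length_nil] at hk
  interval_cases k
  · simpa [sh_zero] using h0
  · simpa using h1
  · simpa using h2
  · simpa using h3

theorem final5 {d : ℕ} (i0 : Fin d) (q : (Fin d → ℤ) → O) (x : Fin d → ℤ) (a y z m : Bool)
    (h0 : q x = some (true, a)) (h1 : q (sh i0 x 1) = some (false, y))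
    (h2 : q (sh i0 x 2) = some (false, z)) (h3 : q (sh i0 x 3) = some (false, m))
    (h4 : q (sh i0 x 4) = some (false, m)) :
    ∃ p ∈ forb i0, Appears p q := by
  refine ⟨_, ⟨_, Or.inr ⟨(a, y, z, m), rfl⟩, rfl⟩, ?_⟩
  rw [appears_word]
  refine ⟨x, fun k hk => ?_⟩
  simp only [List.length_cons, List.length_nil] at hk
  interval_cases k
  · simpa [sh_zero] using h0
  · simpa using h1
  · simpa using h2
  · simpa using h3
  · simpa using h4

/-- `A` wins at once by completing `R_b L_b`, when some `R` has a free cell to its right. -/
theorem win_right {d : ℕ} (i0 : Fin d) (pass : Prop) (q : (Fin d → ℤ) → O) (x : Fin d → ℤ)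
    (b : Bool) (h0 : q x = some (true, b)) (h1 : q (sh i0 x 1) = none) :
    AWins pass (forb i0) Set.univ true q := by
  refine AWins.moveA q (sh i0 x 1) (false, b) (Set.mem_univ _) h1 (AWins.final _ _ ?_)
  apply final2 i0 _ x b
  · have : x ≠ sh i0 x 1 := by
      intro h; rw [← h] at h1; rw [h1] at h0; exact absurd h0 (by simp)
    simp [play_apply, this, h0]
  · simp [play_apply]

/-- `A` wins at once by completing `R_b L_b`, when some `L` has a free cell to its left. -/
theorem win_left {d : ℕ} (i0 : Fin d) (pass : Prop) (q : (Fin d → ℤ) → O) (x : Fin d → ℤ)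
    (b : Bool) (h0 : q x = some (false, b)) (h1 : q (sh i0 x (-1)) = none) :
    AWins pass (forb i0) Set.univ true q := by
  refine AWins.moveA q (sh i0 x (-1)) (true, b) (Set.mem_univ _) h1 (AWins.final _ _ ?_)
  apply final2 i0 _ (sh i0 x (-1)) b
  · simp [play_apply]
  · have h2 : sh i0 (sh i0 x (-1)) 1 = x := by rw [sh_sh]; simp [sh_zero]
    have : x ≠ sh i0 x (-1) := by
      intro h; rw [← h] at h1; rw [h1] at h0; exact absurd h0 (by simp)
    rw [h2]
    simp [play_apply, this, h0]

/-- `A` wins the game without passing. -/
theorem aWins {d : ℕ} (i0 : Fin d) :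
    AWins False (forb i0) Set.univ true (start d (Bool × Bool)) := by
  set o : Fin d → ℤ := 0 with ho
  -- `A` colours the origin with `R_0`
  refine AWins.moveA _ o (true, false) (Set.mem_univ _) rfl ?_
  set q1 := play (start d (Bool × Bool)) o (true, false) with hq1
  have q1o : q1 o = some (true, false) := by simp [hq1, play_apply]
  have q1n : ∀ y, y ≠ o → q1 y = none := by
    intro y hy; simp [hq1, play_apply, hy, start]
  have ne1 : sh i0 o 1 ≠ o := by rw [Ne, sh_eq_self]; norm_num
  refine AWins.moveB _ (Or.inr ⟨sh i0 o 1, Set.mem_univ _, q1n _ ne1⟩) ?_ (fun h => h.elim)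
  intro i _ hi s
  have hio : i ≠ o := by rintro rfl; rw [q1o] at hi; exact absurd hi (by simp)
  by_cases hi1 : i = sh i0 o 1
  · subst hi1
    obtain ⟨t, b⟩ := s
    cases t
    · cases b
      · -- `B` completes the forbidden word himself
        refine AWins.final _ _ (final2 i0 _ o false ?_ ?_)
        · simp [play_apply, ne1.symm, q1o]
        · simp [play_apply]
      · -- `B` answers `L_1`
        set q2 := play q1 (sh i0 o 1) (false, true) with hq2
        have q2o : q2 (sh i0 o 0) = some (true, false) := by
          simp [hq2, play_apply, sh_zero, ne1.symm, q1o]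
        have q21 : q2 (sh i0 o 1) = some (false, true) := by simp [hq2, play_apply]
        have q2n : ∀ y, y ≠ sh i0 o 0 → y ≠ sh i0 o 1 → q2 y = none := by
          intro y hy hy1
          rw [sh_zero] at hy
          simp [hq2, play_apply, hy1, q1n y hy]
        have q2line : ∀ k : ℤ, k ≠ 0 → k ≠ 1 → q2 (sh i0 o k) = none := by
          intro k hk0 hk1
          exact q2n _ (by rw [Ne, sh_inj]; exact hk0) (by rw [Ne, sh_inj]; exact hk1)
        refine AWins.moveA _ (sh i0 o 2) (false, false) (Set.mem_univ _)
          (q2line 2 (by norm_num) (by norm_num)) ?_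
        set q3 := play q2 (sh i0 o 2) (false, false) with hq3
        have q30 : q3 (sh i0 o 0) = some (true, false) := by
          have : sh i0 o 0 ≠ sh i0 o 2 := by rw [Ne, sh_inj]; norm_num
          simp [hq3, play_apply, this, q2o]
        have q31 : q3 (sh i0 o 1) = some (false, true) := by
          have : sh i0 o 1 ≠ sh i0 o 2 := by rw [Ne, sh_inj]; norm_num
          simp [hq3, play_apply, this, q21]
        have q32 : q3 (sh i0 o 2) = some (false, false) := by simp [hq3, play_apply]
        have q3n : ∀ y, y ≠ sh i0 o 0 → y ≠ sh i0 o 1 → y ≠ sh i0 o 2 → q3 y = none := by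
          intro y hy hy1 hy2
          simp [hq3, play_apply, hy2, q2n y hy hy1]
        have q3line : ∀ k : ℤ, k ≠ 0 → k ≠ 1 → k ≠ 2 → q3 (sh i0 o k) = none := by
          intro k hk0 hk1 hk2
          exact q3n _ (by rw [Ne, sh_inj]; exact hk0) (by rw [Ne, sh_inj]; exact hk1)
            (by rw [Ne, sh_inj]; exact hk2)
        refine AWins.moveB _ (Or.inr ⟨sh i0 o 3, Set.mem_univ _,
          q3line 3 (by norm_num) (by norm_num) (by norm_num)⟩) ?_ (fun h => h.elim)
        intro j _ hj s
        have hj0 : j ≠ sh i0 o 0 := by rintro rfl; rw [q30] at hj; exact absurd hj (by simp)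
        have hj1 : j ≠ sh i0 o 1 := by rintro rfl; rw [q31] at hj; exact absurd hj (by simp)
        have hj2 : j ≠ sh i0 o 2 := by rintro rfl; rw [q32] at hj; exact absurd hj (by simp)
        obtain ⟨t, b⟩ := s
        cases t
        · -- `B` plays an `L`
          by_cases hj3 : j = sh i0 o 3
          · subst hj3
            refine AWins.moveA _ (sh i0 o 4) (false, b) (Set.mem_univ _) ?_
              (AWins.final _ _ (final5 i0 _ o false true false b ?_ ?_ ?_ ?_ ?_))
            · have : sh i0 o 4 ≠ sh i0 o 3 := by rw [Ne, sh_inj]; norm_num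
              simp [play_apply, this, q3line 4 (by norm_num) (by norm_num) (by norm_num)]
            · have h1 : o ≠ sh i0 o 4 := by rw [ne_comm, Ne, sh_eq_self]; norm_num
              have h2 : o ≠ sh i0 o 3 := by rw [ne_comm, Ne, sh_eq_self]; norm_num
              have h3 : q3 o = some (true, false) := by simpa [sh_zero] using q30
              simp [play_apply, h1, h2, h3]
            · have h1 : sh i0 o 1 ≠ sh i0 o 4 := by rw [Ne, sh_inj]; norm_num
              have h2 : sh i0 o 1 ≠ sh i0 o 3 := by rw [Ne, sh_inj]; norm_num
              simp [play_apply, h1, h2, q31]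
            · have h1 : sh i0 o 2 ≠ sh i0 o 4 := by rw [Ne, sh_inj]; norm_num
              have h2 : sh i0 o 2 ≠ sh i0 o 3 := by rw [Ne, sh_inj]; norm_num
              simp [play_apply, h1, h2, q32]
            · have h1 : sh i0 o 3 ≠ sh i0 o 4 := by rw [Ne, sh_inj]; norm_num
              simp [play_apply, h1]
            · simp [play_apply]
          · apply win_left i0 _ _ j b
            · simp [play_apply]
            · have hne : sh i0 j (-1) ≠ j := by rw [Ne, sh_eq_self]; norm_num
              have key : ∀ k : ℤ, j ≠ sh i0 o k → sh i0 j (-1) ≠ sh i0 o (k - 1) := by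
                intro k hk h
                apply hk
                have h2 : sh i0 (sh i0 j (-1)) 1 = sh i0 (sh i0 o (k - 1)) 1 := by rw [h]
                rw [sh_sh, sh_sh] at h2
                simpa [sh_zero] using h2
              have k0 := key 1 hj1
              have k1 := key 2 hj2
              have k2 := key 3 hj3
              norm_num at k0 k1 k2
              simp only [play_apply, hne, if_false]
              exact q3n _ k0 k1 k2
        · -- `B` plays an `R`
          by_cases hj3 : j = sh i0 o (-1)
          · subst hj3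
            refine AWins.moveA _ (sh i0 o (-2)) (true, b) (Set.mem_univ _) ?_
              (AWins.final _ _ (final4 i0 _ (sh i0 o (-2)) b false true ?_ ?_ ?_ ?_))
            · have : sh i0 o (-2) ≠ sh i0 o (-1) := by rw [Ne, sh_inj]; norm_num
              simp [play_apply, this, q3line (-2) (by norm_num) (by norm_num) (by norm_num)]
            · simp [play_apply]
            · have h1 : sh i0 (sh i0 o (-2)) 1 = sh i0 o (-1) := by rw [sh_sh]; norm_num
              have h2 : sh i0 o (-1) ≠ sh i0 o (-2) := by rw [Ne, sh_inj]; norm_num
              simp [play_apply, h1, h2]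
            · have h1 : sh i0 (sh i0 o (-2)) 2 = sh i0 o 0 := by rw [sh_sh]; norm_num
              have h2 : sh i0 o 0 ≠ sh i0 o (-2) := by rw [Ne, sh_inj]; norm_num
              have h3 : sh i0 o 0 ≠ sh i0 o (-1) := by rw [Ne, sh_inj]; norm_num
              simp [play_apply, h1, h2, h3, q30]
            · have h1 : sh i0 (sh i0 o (-2)) 3 = sh i0 o 1 := by rw [sh_sh]; norm_num
              have h2 : sh i0 o 1 ≠ sh i0 o (-2) := by rw [Ne, sh_inj]; norm_num
              have h3 : sh i0 o 1 ≠ sh i0 o (-1) := by rw [Ne, sh_inj]; norm_num
              simp [play_apply, h1, h2, h3, q31]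
          · apply win_right i0 _ _ j b
            · simp [play_apply]
            · have hne : sh i0 j 1 ≠ j := by rw [Ne, sh_eq_self]; norm_num
              have key : ∀ k : ℤ, j ≠ sh i0 o k → sh i0 j 1 ≠ sh i0 o (k + 1) := by
                intro k hk h
                apply hk
                have h2 : sh i0 (sh i0 j 1) (-1) = sh i0 (sh i0 o (k + 1)) (-1) := by rw [h]
                rw [sh_sh, sh_sh] at h2
                simpa [sh_zero] using h2
              have k0 := key (-1) hj3
              have k1 := key 0 hj0
              have k2 := key 1 hj1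
              norm_num at k0 k1 k2
              simp only [play_apply, hne, if_false]
              exact q3n _ k0 k1 k2
    · -- `B` answers with an `R`
      apply win_right i0 _ _ (sh i0 o 1) b
      · simp [play_apply]
      · rw [sh_sh]
        have h1 : sh i0 o (1 + 1) ≠ sh i0 o 1 := by rw [Ne, sh_inj]; norm_num
        have h2 : sh i0 o (1 + 1) ≠ o := by rw [Ne, sh_eq_self]; norm_num
        simp only [play_apply, h1, if_false]
        exact q1n _ h2
  · -- `B` plays elsewhere
    apply win_right i0 _ _ o false
    · simp [play_apply, Ne.symm hio, q1o]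
    · simp only [play_apply, Ne.symm hi1, if_false]
      exact q1n _ ne1

/-- For every `d ≥ 1` there is a finite set of forbidden patterns over a four letter alphabet such
that, on the full lattice `ℤ^d`, the game without passing is winning for `A` while the game with
passing is winning for `B` (that is, not winning for `A`). -/
theorem result (d : ℕ) (hd : 1 ≤ d) :
    ∃ F : Set (Pattern d (Bool × Bool)), F.Finite ∧
      AWins False F Set.univ true (start d (Bool × Bool)) ∧
      ¬ AWins True F Set.univ true (start d (Bool × Bool)) := by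
  have i0 : Fin d := ⟨0, hd⟩
  refine ⟨forb i0, forb_finite i0, aWins i0, fun h => ?_⟩
  exact (bWins i0 true _ h).1 rfl (inv_start i0)

end Pool.Agent.Results.MP_d015f1_co.PassingMatters
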